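import Pool.Agent.W546.ST.Defs

set_option autoImplicit false
open Matrix MeasureTheory Set Metric Filter Topology
open scoped ENNReal Nat

namespace Pool.Agent.W683.ST
open Pool.Agent.Helper82.OS Pool.Agent.W546.ST

/-! ### means -/

theorem mn_mono {f g : ℝ → ℝ} (hf : Continuous f) (hg : Continuous g) (h : ∀ a, f a ≤ g a) :
    mn f ≤ mn g := by
  unfold mn
  apply mul_le_mul_of_nonneg_left _ (by positivity)
  exact intervalIntegral.integral_mono Real.pi_pos.le (hf.intervalIntegrable _ _)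
    (hg.intervalIntegrable _ _) h

theorem mn_add {f g : ℝ → ℝ} (hf : Continuous f) (hg : Continuous g) :
    mn (fun a => f a + g a) = mn f + mn g := by
  unfold mn
  rw [intervalIntegral.integral_add (hf.intervalIntegrable _ _) (hg.intervalIntegrable _ _)]
  ring

theorem mn_sub {f g : ℝ → ℝ} (hf : Continuous f) (hg : Continuous g) :
    mn (fun a => f a - g a) = mn f - mn g := by
  unfold mn
  rw [intervalIntegral.integral_sub (hf.intervalIntegrable _ _) (hg.intervalIntegrable _ _)]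
  ring

theorem mn_smul (c : ℝ) (f : ℝ → ℝ) : mn (fun a => c * f a) = c * mn f := by
  unfold mn
  rw [intervalIntegral.integral_const_mul]
  ring

theorem mn_odd {f : ℝ → ℝ} (h : ∀ a, f (Real.pi - a) = - f a) : mn f = 0 := by
  unfold mn
  have h1 : ∫ a in (0 : ℝ)..Real.pi, f (Real.pi - a) = ∫ a in (0 : ℝ)..Real.pi, f a := by
    rw [intervalIntegral.integral_comp_sub_left]
    simp
  have h2 : ∫ a in (0 : ℝ)..Real.pi, f (Real.pi - a) = - ∫ a in (0 : ℝ)..Real.pi, f a := by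
    simp only [h]
    rw [intervalIntegral.integral_neg]
  have h3 : ∫ a in (0 : ℝ)..Real.pi, f a = 0 := by linarith
  rw [h3, mul_zero]

/-! ### the function `hh` -/

theorem hh_ge {l : ℝ} (hl : l ≤ 1 / 2) (a : ℝ) : l ≤ hh l a := by
  unfold hh
  have := mul_nonneg (by linarith : (0 : ℝ) ≤ 1 - 2 * l) (sq_nonneg (Real.sin a))
  linarith

theorem hh_pos {l : ℝ} (h0 : 0 < l) (hl : l ≤ 1 / 2) (a : ℝ) : 0 < hh l a :=
  lt_of_lt_of_le h0 (hh_ge hl a)

theorem hh_nonneg {l : ℝ} (h0 : 0 ≤ l) (hl : l ≤ 1 / 2) (a : ℝ) : 0 ≤ hh l a :=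
  h0.trans (hh_ge hl a)

theorem hh_le_one {l : ℝ} (h0 : 0 ≤ l) (hl : l ≤ 1 / 2) (a : ℝ) : hh l a ≤ 1 := by
  unfold hh
  have h1 : Real.sin a ^ 2 ≤ 1 := Real.sin_sq_le_one a
  nlinarith

theorem continuous_hh (l : ℝ) : Continuous (hh l) := by
  unfold hh
  fun_prop

theorem hh_theta {l m : ℝ} (hm : m ≤ l) (h0 : 0 ≤ l) (hl : l ≤ 1 / 2) (a : ℝ) :
    hh m a ≤ (1 + 2 * (l - m)) * hh l a := by
  unfold hh
  have h1 : Real.sin a ^ 2 ≤ 1 := Real.sin_sq_le_one a
  have h2 := sq_nonneg (Real.sin a)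
  have e : (1 + 2 * (l - m)) * (l + (1 - 2 * l) * Real.sin a ^ 2) - (m + (1 - 2 * m) * Real.sin a ^ 2)
      = (l - m) * (1 + 2 * l - 4 * l * Real.sin a ^ 2) := by ring
  have h3 : 0 ≤ 1 + 2 * l - 4 * l * Real.sin a ^ 2 := by
    have := mul_le_mul_of_nonneg_left h1 h0
    linarith
  have h4 : 0 ≤ (l - m) * (1 + 2 * l - 4 * l * Real.sin a ^ 2) :=
    mul_nonneg (by linarith) h3
  linarith

/-! ### the scalar inequality -/

theorem mono_phi (n : ℕ) (hn : 3 ≤ n) {x y : ℝ} (hx : 0 ≤ x) (hxy : x ≤ y) (hy : y ≤ 1) :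
    (n : ℝ) * x ^ (n - 1) - ((n : ℝ) - 1) * x ^ n ≤ (n : ℝ) * y ^ (n - 1) - ((n : ℝ) - 1) * y ^ n := by
  obtain ⟨m, rfl⟩ : ∃ m, n = m + 2 := ⟨n - 2, by omega⟩
  have hmono : MonotoneOn (fun z : ℝ => ((m + 2 : ℕ) : ℝ) * z ^ (m + 2 - 1)
      - (((m + 2 : ℕ) : ℝ) - 1) * z ^ (m + 2)) (Icc 0 1) := by
    apply monotoneOn_of_deriv_nonneg (convex_Icc 0 1)
    · fun_prop
    · fun_prop
    · intro z hz
      rw [interior_Icc] at hz
      have hd : HasDerivAt (fun z : ℝ => ((m + 2 : ℕ) : ℝ) * z ^ (m + 2 - 1)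
          - (((m + 2 : ℕ) : ℝ) - 1) * z ^ (m + 2))
          (((m + 2 : ℕ) : ℝ) * (((m + 1 : ℕ) : ℝ) * z ^ m)
            - (((m + 2 : ℕ) : ℝ) - 1) * (((m + 2 : ℕ) : ℝ) * z ^ (m + 1))) z := by
        have a1 := (hasDerivAt_pow (m + 1) z).const_mul (((m + 2 : ℕ) : ℝ))
        have a2 := (hasDerivAt_pow (m + 2) z).const_mul ((((m + 2 : ℕ) : ℝ) - 1))
        exact a1.sub a2
      rw [hd.deriv]
      push_cast
      have e : ((m : ℝ) + 2) * (((m : ℝ) + 1) * z ^ m) - ((m : ℝ) + 2 - 1) * (((m : ℝ) + 2) * z ^ (m + 1))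
          = ((m : ℝ) + 2) * ((m : ℝ) + 1) * z ^ m * (1 - z) := by
        rw [pow_succ]; ring
      rw [e]
      have := hz.1
      have := hz.2
      have : 0 ≤ 1 - z := by linarith
      have : 0 ≤ z ^ m := pow_nonneg (by linarith) _
      positivity
  exact hmono ⟨hx, hxy.trans hy⟩ ⟨hx.trans hxy, hy⟩ hxy

/-- the function `U` -/
noncomputable def U (n : ℕ) (g c sig y : ℝ) : ℝ :=
  (2 * (n : ℝ) + 3) * n * sig * y ^ (n - 1) - g * sig * y ^ n + c * y ^ n

theorem U_nonneg (n : ℕ) (hn : 3 ≤ n) {g c sig y : ℝ} (hg : g ≤ 3 * ((n : ℝ) + 2)) (hc : 0 ≤ c)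
    (hs : 0 ≤ sig) (hy : 0 ≤ y) (hy1 : y ≤ 1) : 0 ≤ U n g c sig y := by
  have hn' : (3 : ℝ) ≤ n := by exact_mod_cast hn
  have e : y ^ n = y ^ (n - 1) * y := by
    rw [← pow_succ]; congr 1; omega
  have h1 : g * y ≤ (2 * (n : ℝ) + 3) * n := by
    rcases le_or_gt g 0 with h | h
    · have : g * y ≤ 0 := mul_nonpos_of_nonpos_of_nonneg h hy
      nlinarith
    · nlinarith
  have e2 : U n g c sig y = sig * y ^ (n - 1) * ((2 * (n : ℝ) + 3) * n - g * y) + c * y ^ n := by
    unfold U; rw [e]; ring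
  rw [e2]
  have h2 : 0 ≤ y ^ (n - 1) := pow_nonneg hy _
  have h3 : 0 ≤ y ^ n := pow_nonneg hy _
  have h4 : 0 ≤ (2 * (n : ℝ) + 3) * n - g * y := by linarith
  positivity

theorem U_mono (n : ℕ) (hn : 3 ≤ n) {g c sig x y : ℝ} (hg : g ≤ 3 * ((n : ℝ) + 2)) (hc : 0 ≤ c)
    (hs : 0 ≤ sig) (hx : 0 ≤ x) (hxy : x ≤ y) (hy1 : y ≤ 1) : U n g c sig x ≤ U n g c sig y := by
  have hn' : (3 : ℝ) ≤ n := by exact_mod_cast hn
  have h1 := mono_phi n hn hx hxy hy1
  have h2 : x ^ n ≤ y ^ n := pow_le_pow_left₀ hx hxy n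
  have h4 : g * (y ^ n - x ^ n) ≤ (2 * (n : ℝ) + 3) * ((n : ℝ) - 1) * (y ^ n - x ^ n) := by
    apply mul_le_mul_of_nonneg_right _ (by linarith)
    nlinarith
  have h5 : (2 * (n : ℝ) + 3) * (((n : ℝ) - 1) * (y ^ n - x ^ n))
      ≤ (2 * (n : ℝ) + 3) * ((n : ℝ) * (y ^ (n - 1) - x ^ (n - 1))) := by
    apply mul_le_mul_of_nonneg_left _ (by positivity)
    linarith
  have h6 : 0 ≤ sig * ((2 * (n : ℝ) + 3) * ((n : ℝ) * (y ^ (n - 1) - x ^ (n - 1)))
      - g * (y ^ n - x ^ n)) := mul_nonneg hs (by linarith)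
  have h7 : 0 ≤ c * (y ^ n - x ^ n) := mul_nonneg hc (by linarith)
  unfold U
  nlinarith

theorem U_scale (n : ℕ) (hn : 3 ≤ n) {g c sig x y th : ℝ} (hg : g ≤ 3 * ((n : ℝ) + 2)) (hc : 0 ≤ c)
    (hs : 0 ≤ sig) (hx : 0 ≤ x) (hx1 : x ≤ 1) (hy : 0 < y) (hy1 : y ≤ 1) (hth : 1 ≤ th)
    (hxy : x ≤ th * y) :
    U n g c sig x ≤ th ^ n * U n g c sig y := by
  have hUy := U_nonneg n hn hg hc hs hy.le hy1
  rcases le_or_gt x y with h | h
  · refine (U_mono n hn hg hc hs hx h hy1).trans ?_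
    have h1 : 1 ≤ th ^ n := one_le_pow₀ hth
    nlinarith
  · set r := x / y with hr
    have hr1 : 1 ≤ r := by rw [hr, le_div_iff₀ hy]; linarith
    have hrth : r ≤ th := by rw [hr, div_le_iff₀ hy]; exact hxy
    have hxr : x = r * y := by rw [hr]; field_simp
    have h1 : U n g c sig x ≤ r ^ n * U n g c sig y := by
      rw [hxr]
      unfold U
      rw [mul_pow, mul_pow]
      have e : r ^ n = r ^ (n - 1) * r := by
        rw [← pow_succ]; congr 1; omega
      have h2 : r ^ (n - 1) ≤ r ^ n := by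
        rw [e]
        have : 0 ≤ r ^ (n - 1) := by positivity
        nlinarith
      have h3 : 0 ≤ (2 * (n : ℝ) + 3) * n * sig * y ^ (n - 1) := by positivity
      nlinarith [mul_le_mul_of_nonneg_left h2 h3]
    refine h1.trans (mul_le_mul_of_nonneg_right ?_ hUy)
    exact pow_le_pow_left₀ (by linarith) hrth n

/-! ### the plane -/

section plane
variable {n : ℕ} (P : PA n)

theorem Y_eq (a : ℝ) (i j : Fin (n + 1)) :
    P.Y a i j = Real.cos a * P.A i j + Real.sin a * P.C i j := rfl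

theorem Yd_eq (a : ℝ) (i j : Fin (n + 1)) :
    P.Yd a i j = -Real.sin a * P.A i j + Real.cos a * P.C i j := rfl

theorem H_add (a : ℝ) : P.H a + P.Yd a * (P.Yd a)ᵀ + Matrix.single 0 0 (P.s ^ 2) = 1 := by
  rw [← P.on]
  congr 1
  unfold PA.H PA.Y PA.Yd
  simp only [Matrix.transpose_add, Matrix.transpose_smul, Matrix.add_mul, Matrix.mul_add,
    Matrix.smul_mul, Matrix.mul_smul, smul_smul, neg_smul, Matrix.neg_mul, Matrix.mul_neg,
    Matrix.transpose_neg, neg_neg]
  have h := Real.sin_sq_add_cos_sq a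
  have e1 : P.A * P.Aᵀ + P.C * P.Cᵀ = (Real.cos a * Real.cos a + Real.sin a * Real.sin a) • (P.A * P.Aᵀ)
      + (Real.cos a * Real.cos a + Real.sin a * Real.sin a) • (P.C * P.Cᵀ) := by
    have : Real.cos a * Real.cos a + Real.sin a * Real.sin a = 1 := by nlinarith
    rw [this, one_smul, one_smul]
  rw [e1]
  module

theorem H_psd (a : ℝ) : (P.H a).PosSemidef := by
  unfold PA.H
  have h := Matrix.posSemidef_self_mul_conjTranspose (P.Y a)
  rwa [Matrix.conjTranspose_eq_transpose_of_trivial] at h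

theorem single_psd (t : ℝ) (ht : 0 ≤ t) :
    (Matrix.single (0 : Fin (n + 1)) 0 t : Matrix (Fin (n + 1)) (Fin (n + 1)) ℝ).PosSemidef := by
  have e : (Matrix.single (0 : Fin (n + 1)) 0 t : Matrix (Fin (n + 1)) (Fin (n + 1)) ℝ)
      = Matrix.diagonal (Pi.single 0 t) := by
    rw [Matrix.diagonal_single]
  rw [e]
  apply Matrix.PosSemidef.diagonal
  intro i
  by_cases h : i = 0
  · subst h; simpa using ht
  · simp [Pi.single_eq_of_ne h]

theorem oneH_psd (a : ℝ) : (1 - P.H a).PosSemidef := by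
  have e : 1 - P.H a = P.Yd a * (P.Yd a)ᵀ + Matrix.single 0 0 (P.s ^ 2) := by
    rw [← H_add P a]; abel
  rw [e]
  have h := Matrix.posSemidef_self_mul_conjTranspose (P.Yd a)
  rw [Matrix.conjTranspose_eq_transpose_of_trivial] at h
  exact h.add (single_psd _ (sq_nonneg _))

theorem H_apply (a : ℝ) (i j : Fin (n + 1)) : P.H a i j = P.Y a i ⬝ᵥ P.Y a j := by
  unfold PA.H
  rw [Matrix.mul_apply]
  rfl

theorem HY_dot (a : ℝ) (i : Fin (n + 1)) : P.Y a i ⬝ᵥ P.Y a i
    = Real.cos a ^ 2 * (P.A i ⬝ᵥ P.A i) + Real.sin a ^ 2 * (P.C i ⬝ᵥ P.C i)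
      + 2 * (Real.sin a * Real.cos a) * (P.A i ⬝ᵥ P.C i) := by
  simp only [dotProduct, Finset.mul_sum]
  rw [← Finset.sum_add_distrib, ← Finset.sum_add_distrib]
  refine Finset.sum_congr rfl fun j _ => ?_
  rw [Y_eq]; ring

theorem on_diag (i : Fin (n + 1)) :
    P.A i ⬝ᵥ P.A i + P.C i ⬝ᵥ P.C i + (if i = 0 then P.s ^ 2 else 0) = 1 := by
  have h := congrFun (congrFun P.on i) i
  simp only [Matrix.add_apply, Matrix.mul_apply, Matrix.transpose_apply, Matrix.one_apply_eq] at h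
  rw [← h]
  simp only [dotProduct]
  congr 1
  by_cases hi : i = 0
  · subst hi; simp
  · rw [if_neg hi, Matrix.single_apply_of_row_ne]
    exact Ne.symm hi

theorem CC_zero : P.C 0 ⬝ᵥ P.C 0 = 1 - P.s ^ 2 - P.tau := by
  have h := on_diag P 0
  rw [if_pos rfl] at h
  unfold PA.tau
  linarith

theorem dot_nonneg (v : Fin (n + 1) → ℝ) : 0 ≤ v ⬝ᵥ v := by
  unfold dotProduct
  exact Finset.sum_nonneg fun i _ => mul_self_nonneg _

theorem H00_nonneg (a : ℝ) : 0 ≤ P.H a 0 0 := by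
  rw [H_apply]; exact dot_nonneg _

theorem H00_le (a : ℝ) : P.H a 0 0 ≤ 1 - P.s ^ 2 := by
  have h := congrFun (congrFun (H_add P a) 0) 0
  simp only [Matrix.add_apply, Matrix.one_apply_eq, Matrix.single_apply_same] at h
  have h2 : 0 ≤ (P.Yd a * (P.Yd a)ᵀ) 0 0 := by
    rw [Matrix.mul_apply]
    exact Finset.sum_nonneg fun i _ => mul_self_nonneg _
  linarith

theorem s2_le : P.s ^ 2 ≤ 1 := by
  have h1 := H00_nonneg P 0
  have h2 := H00_le P 0
  linarith

theorem H00_eq (a : ℝ) : P.H a 0 0 = (1 - P.s ^ 2) * Real.sin a ^ 2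
    + P.tau * (1 - 2 * Real.sin a ^ 2) + 2 * (P.A 0 ⬝ᵥ P.C 0) * (Real.sin a * Real.cos a) := by
  rw [H_apply, HY_dot, CC_zero]
  have h := Real.sin_sq_add_cos_sq a
  have e : Real.cos a ^ 2 = 1 - Real.sin a ^ 2 := by linarith
  rw [e]
  unfold PA.tau
  ring

theorem lam_nonneg : 0 ≤ P.lam := by
  unfold PA.lam
  exact div_nonneg (Finset.sum_nonneg fun j _ => dot_nonneg _) (Nat.cast_nonneg _)

theorem trace_minor (hn : 1 ≤ n) (a : ℝ) :
    ((P.H a).submatrix Fin.succ Fin.succ).trace = n * hh P.lam a := by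
  have hn' : (0 : ℝ) < n := by exact_mod_cast hn
  have e1 : ((P.H a).submatrix Fin.succ Fin.succ).trace
      = ∑ j : Fin n, (Real.cos a ^ 2 * (P.A j.succ ⬝ᵥ P.A j.succ)
        + Real.sin a ^ 2 * (1 - P.A j.succ ⬝ᵥ P.A j.succ)
        + 2 * (Real.sin a * Real.cos a) * (P.A j.succ ⬝ᵥ P.C j.succ)) := by
    unfold Matrix.trace
    refine Finset.sum_congr rfl fun j _ => ?_
    rw [Matrix.diag_apply, Matrix.submatrix_apply, H_apply, HY_dot]
    have h := on_diag P j.succ
    rw [if_neg (Fin.succ_ne_zero j)] at h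
    have : P.C j.succ ⬝ᵥ P.C j.succ = 1 - P.A j.succ ⬝ᵥ P.A j.succ := by linarith
    rw [this]
  rw [e1, Finset.sum_add_distrib, Finset.sum_add_distrib, ← Finset.mul_sum, ← Finset.mul_sum,
    ← Finset.mul_sum, P.al, Finset.sum_sub_distrib]
  have e2 : ∑ j : Fin n, P.A j.succ ⬝ᵥ P.A j.succ = n * P.lam := by
    unfold PA.lam; field_simp
  rw [e2]
  simp only [Finset.sum_const, Finset.card_univ, Fintype.card_fin, nsmul_eq_mul, mul_one, mul_zero,
    add_zero]
  unfold hh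
  have h := Real.sin_sq_add_cos_sq a
  have e : Real.cos a ^ 2 = 1 - Real.sin a ^ 2 := by linarith
  rw [e]
  ring

theorem det_H (a : ℝ) : (P.H a).det = (P.Y a).det ^ 2 := by
  unfold PA.H
  rw [Matrix.det_mul, Matrix.det_transpose]
  ring

theorem contDiff_det : ContDiff ℝ 1 (fun a => (P.Y a).det) := by
  have e : (fun a => (P.Y a).det) = fun a => ∑ σ : Equiv.Perm (Fin (n + 1)),
      ((Equiv.Perm.sign σ : ℤ) : ℝ) * ∏ i, (Real.cos a * P.A (σ i) i + Real.sin a * P.C (σ i) i) := by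
    funext a
    rw [Matrix.det_apply']
    rfl
  rw [e]
  refine ContDiff.sum fun σ _ => ?_
  refine contDiff_const.mul ?_
  refine contDiff_prod fun i _ => ?_
  exact (Real.contDiff_cos.mul contDiff_const).add (Real.contDiff_sin.mul contDiff_const)

theorem cont_Y : Continuous P.Y := by
  unfold PA.Y
  fun_prop

theorem cont_Yd : Continuous P.Yd := by
  unfold PA.Yd
  fun_prop

theorem cont_H : Continuous P.H := by
  unfold PA.H
  exact (cont_Y P).matrix_mul (cont_Y P).matrix_transpose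

theorem cont_T : Continuous P.T := by
  unfold PA.T
  exact (cont_Y P).matrix_adjugate.matrix_mul (cont_Yd P)

theorem cont_ze : Continuous P.ze := by
  unfold PA.ze
  have h : Continuous fun a => (P.Y a).adjugate *ᵥ (Pi.single 0 1 : Fin (n + 1) → ℝ) :=
    (cont_Y P).matrix_adjugate.matrix_mulVec continuous_const
  exact h.const_smul P.s

theorem cont_I : Continuous P.I := by
  unfold PA.I
  have h1 := (cont_Y P).matrix_det
  have h2 := ((cont_T P).matrix_mul (cont_T P).matrix_transpose).matrix_trace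
  have h3 := ((cont_T P).matrix_mul (cont_T P)).matrix_trace
  have h4 := (cont_T P).matrix_trace
  have h5 := (cont_ze P).dotProduct (cont_ze P)
  fun_prop

end plane

theorem INT (h1 : St_PT) (h2 : St_PIC) (h3 : St_LA) : St_INT := by
  intro n hodd hn P l hlam hl0 hl
  have hn' : (3 : ℝ) ≤ n := by exact_mod_cast hn
  have hlam0 := lam_nonneg P
  have hs2 := s2_le P
  have hs0 := sq_nonneg P.s
  have hpos : ∀ a, 0 < hh l a := fun a => hh_pos hl0 hl a
  have hle1 : ∀ a, hh l a ≤ 1 := fun a => hh_le_one hl0.le hl a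
  have hch := continuous_hh l
  have hsq : ∀ a, 0 < Real.sqrt (hh l a ^ n) := fun a => Real.sqrt_pos.2 (pow_pos (hpos a) n)
  have hsqc : Continuous fun a => Real.sqrt (hh l a ^ n) := (hch.pow n).sqrt
  have hsqne : ∀ a, Real.sqrt (hh l a ^ n) ≠ 0 := fun a => (hsq a).ne'
  have hne : ∀ a, hh l a ≠ 0 := fun a => (hpos a).ne'
  have hDc := (contDiff_det P).continuous
  have hD'c : Continuous (deriv fun b => (P.Y b).det) :=
    (contDiff_det P).continuous_deriv le_rfl
  have hIc := cont_I P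
  have hHc := cont_H P
  set mu : ℝ := l * (1 - l) with hmu
  have hmu0 : 0 ≤ mu := by rw [hmu]; nlinarith
  -- the right side of PT without the derivative
  set R : ℝ → ℝ := fun a => (2 * (n : ℝ) + 3) * ((P.H a).adjugate.trace - (P.H a).det)
    + (2 * ((n : ℝ) + 1) ^ 2 - 4 * ((n : ℝ) + 1) - 1) * P.s ^ 2 *
      ((P.H a).submatrix Fin.succ Fin.succ).det with hR
  have hRc : Continuous R := by
    have c1 := hHc.matrix_adjugate.matrix_trace
    have c2 := hHc.matrix_det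
    have c3 : Continuous fun a => ((P.H a).submatrix Fin.succ Fin.succ).det :=
      (hHc.matrix_submatrix Fin.succ Fin.succ).matrix_det
    rw [hR]
    fun_prop
  set gam : ℝ → ℝ := fun a => 3 * ((n : ℝ) + 2) - ((n : ℝ) + 3) * (mu / hh l a ^ 2) with hgam
  have hgle : ∀ a, gam a ≤ 3 * ((n : ℝ) + 2) := by
    intro a
    rw [hgam]
    have : 0 ≤ ((n : ℝ) + 3) * (mu / hh l a ^ 2) := by
      have := hpos a
      positivity
    simp only
    linarith
  set cc : ℝ := (2 * (n : ℝ) + 3) * (1 - P.s ^ 2) + 2 * ((n : ℝ) + 1) * n * P.s ^ 2 with hcc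
  have hcc0 : 0 ≤ cc := by
    rw [hcc]
    have : 0 ≤ 1 - P.s ^ 2 := by linarith
    positivity
  set th : ℝ := 1 + 2 * (l - P.lam) with hth
  have hth1 : 1 ≤ th := by rw [hth]; linarith
  -- step 1
  have step1 : (n : ℝ) * mn (fun a => P.I a / Real.sqrt (hh l a ^ n)) ≤
      mn (fun a => (R a - ((n : ℝ) + 3) * ((1 - mu / hh l a ^ 2) * (P.Y a).det ^ 2))
        / Real.sqrt (hh l a ^ n)) := by
    have a1 : (n : ℝ) * mn (fun a => P.I a / Real.sqrt (hh l a ^ n)) ≤
        mn (fun a => R a / Real.sqrt (hh l a ^ n)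
          - (((n : ℝ) + 3) / ((n : ℝ) + 1)) *
            (deriv (fun b => (P.Y b).det) a ^ 2 / Real.sqrt (hh l a ^ n))) := by
      rw [← mn_smul]
      apply mn_mono
      · exact continuous_const.mul (hIc.div hsqc hsqne)
      · exact (hRc.div hsqc hsqne).sub (continuous_const.mul ((hD'c.pow 2).div hsqc hsqne))
      · intro a
        have hpt := h1 n (by omega) P a
        have e : R a / Real.sqrt (hh l a ^ n)
          - (((n : ℝ) + 3) / ((n : ℝ) + 1)) *
            (deriv (fun b => (P.Y b).det) a ^ 2 / Real.sqrt (hh l a ^ n))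
            = (R a - (((n : ℝ) + 3) / ((n : ℝ) + 1)) * deriv (fun b => (P.Y b).det) a ^ 2)
              / Real.sqrt (hh l a ^ n) := by ring
        rw [e, ← mul_div_assoc]
        exact div_le_div_of_nonneg_right hpt (hsq a).le
    have a2 : mn (fun a => R a / Real.sqrt (hh l a ^ n)
          - (((n : ℝ) + 3) / ((n : ℝ) + 1)) *
            (deriv (fun b => (P.Y b).det) a ^ 2 / Real.sqrt (hh l a ^ n)))
        = mn (fun a => R a / Real.sqrt (hh l a ^ n)) - (((n : ℝ) + 3) / ((n : ℝ) + 1)) *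
          mn (fun a => deriv (fun b => (P.Y b).det) a ^ 2 / Real.sqrt (hh l a ^ n)) := by
      rw [mn_sub (f := fun a => R a / Real.sqrt (hh l a ^ n))
        (g := fun a => (((n : ℝ) + 3) / ((n : ℝ) + 1)) *
            (deriv (fun b => (P.Y b).det) a ^ 2 / Real.sqrt (hh l a ^ n))) (hRc.div hsqc hsqne)
        (continuous_const.mul ((hD'c.pow 2).div hsqc hsqne)), mn_smul]
    have a3 := h2 n l hl0 hl (fun a => (P.Y a).det) (contDiff_det P)
    have hF : Continuous fun a => (1 - mu / hh l a ^ 2) * (P.Y a).det ^ 2 / Real.sqrt (hh l a ^ n) := by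
      refine Continuous.div ?_ hsqc hsqne
      refine Continuous.mul ?_ (hDc.pow 2)
      exact continuous_const.sub (continuous_const.div (hch.pow 2) (fun a => pow_ne_zero 2 (hne a)))
    have a4 : mn (fun a => (R a - ((n : ℝ) + 3) * ((1 - mu / hh l a ^ 2) * (P.Y a).det ^ 2))
        / Real.sqrt (hh l a ^ n)) = mn (fun a => R a / Real.sqrt (hh l a ^ n))
        - ((n : ℝ) + 3) * mn (fun a => (1 - mu / hh l a ^ 2) * (P.Y a).det ^ 2
          / Real.sqrt (hh l a ^ n)) := by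
      rw [← mn_smul, ← mn_sub (f := fun a => R a / Real.sqrt (hh l a ^ n))
        (g := fun a => ((n : ℝ) + 3) * ((1 - mu / hh l a ^ 2) * (P.Y a).det ^ 2
          / Real.sqrt (hh l a ^ n))) (hRc.div hsqc hsqne) (continuous_const.mul hF)]
      congr 1
      funext a
      ring
    rw [a4]
    refine a1.trans ?_
    rw [a2]
    have hq : 0 ≤ ((n : ℝ) + 3) / ((n : ℝ) + 1) := by positivity
    have a5 := mul_le_mul_of_nonneg_left a3 hq
    have a6 : ((n : ℝ) + 3) / ((n : ℝ) + 1) * (((n : ℝ) + 1) *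
        mn (fun a => (1 - l * (1 - l) / hh l a ^ 2) * (P.Y a).det ^ 2 / Real.sqrt (hh l a ^ n)))
        = ((n : ℝ) + 3) * mn (fun a => (1 - mu / hh l a ^ 2) * (P.Y a).det ^ 2
          / Real.sqrt (hh l a ^ n)) := by
      rw [← mul_assoc]
      congr 1
      field_simp
    rw [a6] at a5
    linarith
  -- step 2: pointwise bound
  have step2 : ∀ a, (R a - ((n : ℝ) + 3) * ((1 - mu / hh l a ^ 2) * (P.Y a).det ^ 2))
      ≤ th ^ n * U n (gam a) cc (P.H a 0 0) (hh l a) := by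
    intro a
    have b1 := h3 n hn (P.H a) (H_psd P a) (oneH_psd P a) (P.s ^ 2) (gam a) (hh P.lam a) hs0 hs2
      (H00_le P a) (hgle a) (trace_minor P (by omega) a)
    have b2 : R a - ((n : ℝ) + 3) * ((1 - mu / hh l a ^ 2) * (P.Y a).det ^ 2)
        = (2 * (n : ℝ) + 3) * (P.H a).adjugate.trace - gam a * (P.H a).det
    + (2 * ((n : ℝ) + 1) ^ 2 - 4 * ((n : ℝ) + 1) - 1) * P.s ^ 2 *
      ((P.H a).submatrix Fin.succ Fin.succ).det := by
      rw [hR, hgam]
      simp only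
      rw [← det_H]
      ring
    rw [b2]
    refine b1.trans ?_
    have hlam1 : P.lam ≤ 1 / 2 := hlam.trans hl
    have b3 := U_scale n hn (hgle a) hcc0 (H00_nonneg P a) (hh_nonneg hlam0 hlam1 a)
      (hh_le_one hlam0 hlam1 a) (hpos a) (hle1 a) hth1 (hh_theta hlam hl0.le hl a)
    exact b3
  -- step 3: the average of `U`
  have hH00c : Continuous fun a => P.H a 0 0 := hHc.matrix_elem 0 0
  have hgamc : Continuous gam := by
    rw [hgam]
    exact continuous_const.sub (continuous_const.mul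
      (continuous_const.div (hch.pow 2) (fun a => pow_ne_zero 2 (hne a))))
  have hUc : Continuous fun a => U n (gam a) cc (P.H a 0 0) (hh l a) := by
    unfold U
    fun_prop
  have hhq : ∀ k, Continuous fun a => hq n k l a := by
    intro k
    unfold hq
    exact hsqc.div (hch.pow k) (fun a => pow_ne_zero k (hne a))
  have hbrc : Continuous fun a => br n l a := by
    unfold br
    have q0 := hhq 0
    have q1 := hhq 1
    have q2 := hhq 2
    fun_prop
  have step3 : ∀ a, U n (gam a) cc (P.H a 0 0) (hh l a) / Real.sqrt (hh l a ^ n)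
      = (1 - P.s ^ 2) * ((2 * (n : ℝ) + 3) * hq n 0 l a + Real.sin a ^ 2 * br n l a)
        + P.s ^ 2 * (2 * ((n : ℝ) + 1) * n * hq n 0 l a)
        + P.tau * ((1 - 2 * Real.sin a ^ 2) * br n l a)
        + 2 * (P.A 0 ⬝ᵥ P.C 0) * (Real.sin a * Real.cos a * br n l a) := by
    intro a
    have hsqn : Real.sqrt (hh l a ^ n) * Real.sqrt (hh l a ^ n) = hh l a ^ n :=
      Real.mul_self_sqrt (pow_pos (hpos a) n).le
    have e1 : hh l a ^ n / Real.sqrt (hh l a ^ n) = Real.sqrt (hh l a ^ n) := by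
      rw [div_eq_iff (hsqne a), hsqn]
    have e2 : hh l a ^ (n - 1) = hh l a ^ n / hh l a := by
      rw [eq_div_iff (hne a), ← pow_succ]
      congr 1
      omega
    have e3 : U n (gam a) cc (P.H a 0 0) (hh l a) / Real.sqrt (hh l a ^ n)
        = (hh l a ^ n / Real.sqrt (hh l a ^ n)) *
          (P.H a 0 0 * ((2 * (n : ℝ) + 3) * n / hh l a - gam a) + cc) := by
      unfold U
      rw [e2]
      field_simp
    rw [e3, e1]
    have e4 : Real.sqrt (hh l a ^ n) * ((2 * (n : ℝ) + 3) * n / hh l a - gam a) = br n l a := by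
      rw [hgam]
      unfold br hq
      simp only [pow_zero, pow_one, div_one]
      rw [← hmu]
      have := hne a
      field_simp
      ring
    have e5 : Real.sqrt (hh l a ^ n) *
          (P.H a 0 0 * ((2 * (n : ℝ) + 3) * n / hh l a - gam a) + cc)
        = P.H a 0 0 * (Real.sqrt (hh l a ^ n) * ((2 * (n : ℝ) + 3) * n / hh l a - gam a))
          + cc * Real.sqrt (hh l a ^ n) := by ring
    rw [e5, e4, H00_eq]
    have e6 : hq n 0 l a = Real.sqrt (hh l a ^ n) := by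
      unfold hq; rw [pow_zero, div_one]
    rw [e6, hcc]
    ring
  have step4 : mn (fun a => U n (gam a) cc (P.H a 0 0) (hh l a) / Real.sqrt (hh l a ^ n))
      = (1 - P.s ^ 2) * X0 n l + P.s ^ 2 * Y0 n l + P.tau * X1 n l := by
    have e0 : (fun a => U n (gam a) cc (P.H a 0 0) (hh l a) / Real.sqrt (hh l a ^ n))
        = fun a => (1 - P.s ^ 2) * ((2 * (n : ℝ) + 3) * hq n 0 l a + Real.sin a ^ 2 * br n l a)
        + P.s ^ 2 * (2 * ((n : ℝ) + 1) * n * hq n 0 l a)
        + P.tau * ((1 - 2 * Real.sin a ^ 2) * br n l a)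
        + 2 * (P.A 0 ⬝ᵥ P.C 0) * (Real.sin a * Real.cos a * br n l a) := funext step3
    rw [e0]
    have q0 := hhq 0
    have c1 : Continuous fun a => (1 - P.s ^ 2) * ((2 * (n : ℝ) + 3) * hq n 0 l a
      + Real.sin a ^ 2 * br n l a) := by fun_prop
    have c2 : Continuous fun a => P.s ^ 2 * (2 * ((n : ℝ) + 1) * n * hq n 0 l a) := by fun_prop
    have c3 : Continuous fun a => P.tau * ((1 - 2 * Real.sin a ^ 2) * br n l a) := by fun_prop
    have c4 : Continuous fun a => 2 * (P.A 0 ⬝ᵥ P.C 0) * (Real.sin a * Real.cos a * br n l a) := by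
      fun_prop
    have c12 : Continuous fun a => (1 - P.s ^ 2) * ((2 * (n : ℝ) + 3) * hq n 0 l a
      + Real.sin a ^ 2 * br n l a) + P.s ^ 2 * (2 * ((n : ℝ) + 1) * n * hq n 0 l a) := c1.add c2
    have c123 : Continuous fun a => (1 - P.s ^ 2) * ((2 * (n : ℝ) + 3) * hq n 0 l a
      + Real.sin a ^ 2 * br n l a) + P.s ^ 2 * (2 * ((n : ℝ) + 1) * n * hq n 0 l a)
      + P.tau * ((1 - 2 * Real.sin a ^ 2) * br n l a) := c12.add c3
    have s1 := mn_add c123 c4
    have s2 := mn_add c12 c3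
    have s3 := mn_add c1 c2
    refine s1.trans ?_
    rw [s2, s3, mn_smul, mn_smul, mn_smul, mn_smul, mn_smul]
    have hodd0 : mn (fun a => Real.sin a * Real.cos a * br n l a) = 0 := by
      apply mn_odd
      intro a
      have hb : br n l (Real.pi - a) = br n l a := by
        unfold br hq hh
        rw [Real.sin_pi_sub]
      rw [hb, Real.sin_pi_sub, Real.cos_pi_sub]
      ring
    rw [hodd0, mul_zero, add_zero]
    rfl
  -- conclusion
  refine step1.trans ?_
  rw [← step4, ← mn_smul]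
  apply mn_mono
  · refine Continuous.div ?_ hsqc hsqne
    refine hRc.sub (continuous_const.mul (Continuous.mul ?_ (hDc.pow 2)))
    exact continuous_const.sub (continuous_const.div (hch.pow 2) (fun a => pow_ne_zero 2 (hne a)))
  · exact continuous_const.mul (hUc.div hsqc hsqne)
  · intro a
    rw [← mul_div_assoc]
    exact div_le_div_of_nonneg_right (step2 a) (hsq a).le

end Pool.Agent.W683.ST
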